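import Mathlib
import Pool.Agent.Work.MP_73869e_nt.OW.DyU

set_option autoImplicit false

namespace Pool.Agent.Results.MP_73869e_nt.AlmostAllShortWindows

open Filter

/-- For every `ε > 0` and every `k` there is `C` such that for all but `ε N` of the `n ≤ N` the
interval `(n^2, n^2 + C log n]` contains at least `k` integers with at most five prime factors
(counted with multiplicity), all of them larger than `n^(9/50)`. -/
theorem result : ∀ ε : ℝ, 0 < ε → ∀ k : ℕ, ∃ C : ℝ, 0 < C ∧ ∃ N₀ : ℕ, ∀ N : ℕ, N₀ ≤ N →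
    ({n : ℕ | 1 ≤ n ∧ n ≤ N ∧ {m : ℕ | n ^ 2 < m ∧
      (m : ℝ) ≤ (n : ℝ) ^ 2 + C * Real.log n ∧
      ArithmeticFunction.cardFactors m ≤ 5 ∧
      ∀ p : ℕ, p.Prime → p ∣ m → (n : ℝ) ^ ((9 : ℝ) / 50) < p}.ncard < k}.ncard : ℝ) ≤ ε * N := by
  intro ε hε k
  obtain ⟨C, hC, h⟩ := Pool.Agent.Work.MP_73869e_nt.OW.almost_all_u ε hε k
  obtain ⟨N₀, hN₀⟩ := Filter.eventually_atTop.1 h
  exact ⟨C, hC, N₀, fun N hN => hN₀ N hN⟩

end Pool.Agent.Results.MP_73869e_nt.AlmostAllShortWindows
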