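import Mathlib
import Pool.Agent.Work.MP_2dba45_nt.TG.Loc

set_option autoImplicit false

namespace Pool.Agent.Results.MP_73869e_nt.AnyOffsets

open Finset Pool.Agent.Work.MP_2dba45_nt.TG Pool.Agent.Work.MP_2dba45_nt.Sv

/-- There is a constant `C` such that for every `k ≥ 1` and every set `S` of at least `C ^ k` pairs
`(h, g)` with `g ≥ 1` there are `≫ N / (log N) ^ κ` integers `n` in `(N, 2 N]` for which at least
`k` of the integers `(n + h) ^ 2 + g ^ 2`, `(h, g) ∈ S`, have at most two prime factors, all at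
least `N ^ (9 / 40)`. -/
theorem result : ∃ C : ℕ, ∀ (k : ℕ) (S : Finset (ℕ × ℕ)), 1 ≤ k → (∀ s ∈ S, 1 ≤ s.2) →
    C ^ k ≤ #S → ∃ (c : ℝ) (κ N₀ : ℕ), 0 < c ∧ ∀ N : ℕ, N₀ ≤ N →
      c * (N / (Real.log N) ^ κ) ≤ ({n : ℕ | N < n ∧ n ≤ 2 * N ∧
        k ≤ {s : ℕ × ℕ | s ∈ S ∧ ArithmeticFunction.cardFactors ((n + s.1) ^ 2 + s.2 ^ 2) ≤ 2 ∧
          ∀ p : ℕ, p.Prime → p ∣ (n + s.1) ^ 2 + s.2 ^ 2 →
            (N : ℝ) ^ ((9 : ℝ) / 40) ≤ p}.ncard}.ncard : ℝ) := by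
  classical
  obtain ⟨C, hC1, hC⟩ := tuple_any 2 0
  refine ⟨C, fun k S hk hg hS => ?_⟩
  obtain ⟨m, rfl⟩ : ∃ m, k = m + 1 := ⟨k - 1, by omega⟩
  obtain ⟨B, hB⟩ : ∃ B : ℕ × ℕ → ℕ → ℕ → Prop,
      B = fun s p n => p ∣ (n + s.1) ^ 2 + s.2 ^ 2 := ⟨_, rfl⟩
  obtain ⟨δ, c, hδ, -, hc, κ, N₀, hmain⟩ := hC m S B hS hg
    (fun s _ p n => by
      rw [hB]
      beta_reduce
      have h : (n + s.1) ^ 2 + s.2 ^ 2 ≡ (n % p + s.1) ^ 2 + s.2 ^ 2 [MOD p] :=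
        (((Nat.mod_modEq n p).symm.add_right _).pow 2).add_right _
      exact h.dvd_iff dvd_rfl)
    (fun s _ p n _ hd => by rw [hB]; exact hd)
    (fun s _ p hp => by rw [hB]; exact (rhB_pair s.1 s.2 p hp).1)
    (fun s _ p _ h => absurd h (Nat.not_lt_zero _))
    (fun s _ p hp _ => by rw [hB]; exact (rhB_pair s.1 s.2 p hp).2)
    1 one_pos
  refine ⟨c, κ, N₀, hc, fun N hN => ?_⟩
  refine (hmain N hN).trans ?_
  rw [← Set.ncard_coe_finset]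
  have hfin : ({n : ℕ | N < n ∧ n ≤ 2 * N ∧
        m + 1 ≤ {s : ℕ × ℕ | s ∈ S ∧
          ArithmeticFunction.cardFactors ((n + s.1) ^ 2 + s.2 ^ 2) ≤ 2 ∧
          ∀ p : ℕ, p.Prime → p ∣ (n + s.1) ^ 2 + s.2 ^ 2 →
            (N : ℝ) ^ ((9 : ℝ) / 40) ≤ p}.ncard}).Finite :=
    (Set.finite_Icc N (2 * N)).subset fun n hn => ⟨hn.1.le, hn.2.1⟩
  have key := Set.ncard_le_ncard (s := ((Ioc N (2 * N)).filter (fun n =>
        m + 1 ≤ #(S.filter (fun s => (∀ p : ℕ, p.Prime → p < pw N δ → ¬ B s p n) ∧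
            GoodV N ((n + s.1) ^ 2 + s.2 ^ 2)))) : Set ℕ)) (ht := hfin) ?_
  · exact_mod_cast key
  intro n hn
  rw [mem_coe, mem_filter, mem_Ioc] at hn
  obtain ⟨⟨hn1, hn2⟩, hn3⟩ := hn
  refine ⟨hn1, hn2, hn3.trans ?_⟩
  rw [← Set.ncard_coe_finset]
  apply Set.ncard_le_ncard _ ((Finset.finite_toSet S).subset fun h hh => hh.1)
  intro s hs
  rw [mem_coe, mem_filter] at hs
  obtain ⟨hsS, _, hgood⟩ := hs
  refine ⟨hsS, hgood.1, ?_⟩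
  intro p hp hd
  have h1 := hgood.2 p hp hd
  have h2 : (N : ℝ) ^ ((9 : ℝ) / 40) ≤ (pw N zExp : ℝ) := by
    unfold pw zExp
    exact Nat.le_ceil _
  refine h2.trans ?_
  exact_mod_cast h1

end Pool.Agent.Results.MP_73869e_nt.AnyOffsets
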