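import Mathlib
import Pool.Agent.Work.MP_73869e_nt.TH.A7

set_option autoImplicit false

namespace Pool.Agent.Results.MP_73869e_nt.ClustersPTwo

open Finset Pool.Agent.Work.MP_73869e_nt.SK

/-- For every `m` and every `c > 0` there is a positive proportion of integers `n` for which the
interval `(n ^ 2, n ^ 2 + c (log₂ n) ^ 2]` contains at least `m` integers `v` (all of the form
`n ^ 2 + g ^ 2`) with at most two prime factors, all of them at least `n ^ (11 / 50)`. -/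
theorem result : ∀ (m : ℕ) (c : ℝ), 0 < c → ∃ (ρ : ℝ) (N₀ : ℕ), 0 < ρ ∧ ∀ N : ℕ, N₀ ≤ N →
    ρ * N ≤ ({n : ℕ | N < n ∧ n ≤ 2 * N ∧
      m ≤ {v : ℕ | n ^ 2 < v ∧ (v : ℝ) ≤ (n : ℝ) ^ 2 + c * (Real.logb 2 n) ^ 2 ∧
        (∃ g : ℕ, v = n ^ 2 + g ^ 2) ∧ ArithmeticFunction.cardFactors v ≤ 2 ∧
        ∀ p : ℕ, p.Prime → p ∣ v → (n : ℝ) ^ ((11 : ℝ) / 50) ≤ p}.ncard}.ncard : ℝ) := by
  classical
  intro m c hc
  have hlog2 : 0 < Real.log 2 := Real.log_pos (by norm_num)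
  obtain ⟨κ, hκ⟩ : ∃ κ : ℝ, κ = Real.sqrt c / Real.log 2 := ⟨_, rfl⟩
  have hκ0 : 0 < κ := by rw [hκ]; exact div_pos (Real.sqrt_pos.2 hc) hlog2
  obtain ⟨ρ, hρ, N₁, hN₁⟩ := Pool.Agent.Work.MP_73869e_nt.TH.theta m κ hκ0
  obtain ⟨N₂, hN₂⟩ := Filter.eventually_atTop.1
    (Pool.Agent.Work.MP_2dba45_nt.Sv.fin_ev2 (11 / 50) (9 / 40) 2 (by norm_num))
  refine ⟨ρ, max N₁ (max N₂ 2), hρ, fun N hN => ?_⟩
  simp only [max_le_iff] at hN
  obtain ⟨hNN1, hNN2, hNN⟩ := hN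
  have hN0 : (0 : ℝ) < N := by positivity
  refine (hN₁ N hNN1).trans ?_
  have hfin : {n : ℕ | N < n ∧ n ≤ 2 * N ∧
      m ≤ {v : ℕ | n ^ 2 < v ∧ (v : ℝ) ≤ (n : ℝ) ^ 2 + c * (Real.logb 2 n) ^ 2 ∧
        (∃ g : ℕ, v = n ^ 2 + g ^ 2) ∧ ArithmeticFunction.cardFactors v ≤ 2 ∧
        ∀ p : ℕ, p.Prime → p ∣ v → (n : ℝ) ^ ((11 : ℝ) / 50) ≤ p}.ncard}.Finite := by
    apply (Finset.finite_toSet (Ioc N (2 * N))).subset
    intro n hn
    rw [mem_coe, mem_Ioc]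
    exact ⟨hn.1, hn.2.1⟩
  have key : ((Ioc N (2 * N)).filter (fun n =>
      m ≤ #((Icc 1 ⌊κ * Real.log N⌋₊).filter (fun g => GoodK N g n))) : Set ℕ) ⊆
      {n : ℕ | N < n ∧ n ≤ 2 * N ∧
      m ≤ {v : ℕ | n ^ 2 < v ∧ (v : ℝ) ≤ (n : ℝ) ^ 2 + c * (Real.logb 2 n) ^ 2 ∧
        (∃ g : ℕ, v = n ^ 2 + g ^ 2) ∧ ArithmeticFunction.cardFactors v ≤ 2 ∧
        ∀ p : ℕ, p.Prime → p ∣ v → (n : ℝ) ^ ((11 : ℝ) / 50) ≤ p}.ncard} := by
    intro n hn
    rw [mem_coe, mem_filter, mem_Ioc] at hn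
    obtain ⟨⟨hn1, hn2⟩, hn3⟩ := hn
    refine ⟨hn1, hn2, hn3.trans ?_⟩
    have hnN : (N : ℝ) < n := by exact_mod_cast hn1
    have hn2r : (n : ℝ) ≤ 2 * N := by exact_mod_cast hn2
    -- the set of `v` is finite
    have hfv : {v : ℕ | n ^ 2 < v ∧ (v : ℝ) ≤ (n : ℝ) ^ 2 + c * (Real.logb 2 n) ^ 2 ∧
        (∃ g : ℕ, v = n ^ 2 + g ^ 2) ∧ ArithmeticFunction.cardFactors v ≤ 2 ∧
        ∀ p : ℕ, p.Prime → p ∣ v → (n : ℝ) ^ ((11 : ℝ) / 50) ≤ p}.Finite := by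
      apply (Finset.finite_toSet (range (⌊(n : ℝ) ^ 2 + c * (Real.logb 2 n) ^ 2⌋₊ + 1))).subset
      intro v hv
      rw [mem_coe, mem_range]
      exact Nat.lt_succ_of_le (Nat.le_floor hv.2.1)
    rw [← Set.ncard_coe_finset]
    apply Set.ncard_le_ncard_of_injOn (fun g => n ^ 2 + g ^ 2) _ _ hfv
    · intro g hg
      rw [mem_coe, mem_filter, mem_Icc] at hg
      obtain ⟨⟨hg1, hg2⟩, hg3, hg4⟩ := hg
      have hgpos : 0 < g ^ 2 := pow_pos (by omega) 2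
      refine ⟨by omega, ?_, ⟨g, rfl⟩, hg3, ?_⟩
      · push_cast
        apply add_le_add_right
        have h1 : (g : ℝ) ≤ κ * Real.log N := by
          refine le_trans ?_ (Nat.floor_le (by
            have : 0 ≤ Real.log N := Real.log_natCast_nonneg N
            positivity))
          exact_mod_cast hg2
        have h2 : Real.log N ≤ Real.log n := Real.log_le_log hN0 hnN.le
        have h3 : (g : ℝ) ≤ κ * Real.log n := h1.trans (mul_le_mul_of_nonneg_left h2 hκ0.le)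
        have h4 : (g : ℝ) ^ 2 ≤ (κ * Real.log n) ^ 2 := pow_le_pow_left₀ (Nat.cast_nonneg _) h3 2
        refine h4.trans (le_of_eq ?_)
        rw [hκ, Real.logb, mul_pow, div_pow, div_pow, Real.sq_sqrt hc.le]
        ring
      · intro p hp hpd
        have h1 : (N : ℝ) ^ ((9 : ℝ) / 40) ≤ p := by
          have h2 := hg4 p hp hpd
          have h3 : (N : ℝ) ^ ((9 : ℝ) / 40) ≤
              (Pool.Agent.Work.MP_2dba45_nt.Sv.pw N Pool.Agent.Work.MP_2dba45_nt.Sv.zExp : ℝ) := by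
            unfold Pool.Agent.Work.MP_2dba45_nt.Sv.pw Pool.Agent.Work.MP_2dba45_nt.Sv.zExp
            exact Nat.le_ceil _
          refine h3.trans ?_
          exact_mod_cast h2
        refine le_trans ?_ h1
        refine le_trans ?_ (hN₂ N hNN2)
        calc (n : ℝ) ^ ((11 : ℝ) / 50) ≤ (2 * N) ^ ((11 : ℝ) / 50) :=
              Real.rpow_le_rpow (Nat.cast_nonneg _) hn2r (by norm_num)
          _ = 2 ^ ((11 : ℝ) / 50) * (N : ℝ) ^ ((11 : ℝ) / 50) :=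
              Real.mul_rpow (by norm_num) hN0.le
          _ ≤ 2 * (N : ℝ) ^ ((11 : ℝ) / 50) := by
              apply mul_le_mul_of_nonneg_right _ (by positivity)
              calc (2 : ℝ) ^ ((11 : ℝ) / 50) ≤ 2 ^ (1 : ℝ) :=
                    Real.rpow_le_rpow_of_exponent_le (by norm_num) (by norm_num)
                _ = 2 := Real.rpow_one _
    · intro g hg g' hg' h
      simp only at h
      have h1 : g ^ 2 = g' ^ 2 := by omega
      exact Nat.pow_left_injective (n := 2) (by norm_num) h1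
  have h1 := Set.ncard_le_ncard key hfin
  rw [Set.ncard_coe_finset] at h1
  exact_mod_cast h1

end Pool.Agent.Results.MP_73869e_nt.ClustersPTwo
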