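import Pool.Agent.Work.MP_73869e_nt.Fin

set_option autoImplicit false

open MeasureTheory ProbabilityTheory Filter

namespace Pool.Agent.Results.MP_73869e_nt.GranvilleModel

open Pool.Agent.Work.MP_73869e_nt

universe u

/-- In Granville's refinement of Cramér's random model of the primes, with any sieving level
`z m = (log m)^(1+o(1))`, for every `c < 4 e^(-γ)` almost surely infinitely many windows
`(n², n² + c (log n)²]` contain no random prime; in particular this holds for the windows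
`(n², n² + (log₂ n)²]` of the problem. -/
theorem result :
    (∀ z : ℕ → ℝ, LogLike z → ∀ c : ℝ, c < 4 * Real.exp (-Real.eulerMascheroniConstant) →
      ∀ (Ω : Type u) [MeasurableSpace Ω] (μ : Measure Ω) [IsProbabilityMeasure μ]
        (A : ℕ → Set Ω), IsModel μ A (granz z) →
      ∀ᵐ ω ∂μ, ∃ᶠ n : ℕ in atTop, ∀ m : ℕ, n ^ 2 < m →
        (m : ℝ) ≤ (n : ℝ) ^ 2 + c * (Real.log n) ^ 2 → ω ∉ A m) ∧
    (∀ z : ℕ → ℝ, LogLike z →
      ∀ (Ω : Type u) [MeasurableSpace Ω] (μ : Measure Ω) [IsProbabilityMeasure μ]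
        (A : ℕ → Set Ω), IsModel μ A (granz z) →
      ∀ᵐ ω ∂μ, ∃ᶠ n : ℕ in atTop, ∀ m : ℕ, n ^ 2 < m →
        (m : ℝ) ≤ (n : ℝ) ^ 2 + (Real.logb 2 n) ^ 2 → ω ∉ A m) ∧
    (∀ z : ℕ → ℝ, LogLike z →
      ∃ (Ω : Type) (_ : MeasurableSpace Ω) (μ : Measure Ω) (_ : IsProbabilityMeasure μ)
        (A : ℕ → Set Ω), IsModel μ A (granz z)) := by
  refine ⟨?_, ?_, ?_⟩
  · intro z hz c hc Ω _ μ _ A hM
    filter_upwards [granville_main hz hc μ A hM] with ω hω
    exact hω.mono fun n hn m h1 h2 => hn m (mem_win_of_le h1 h2)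
  · intro z hz Ω _ μ _ A hM
    filter_upwards [granville_main hz c0_lt μ A hM] with ω hω
    exact hω.mono fun n hn m h1 h2 => hn m ((mem_win_logb n m).2 ⟨h1, h2⟩)
  · intro z hz
    exact exists_model _ (granz_prob hz)

end Pool.Agent.Results.MP_73869e_nt.GranvilleModel
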